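import Pool.Agent.H95.WBaire

set_option autoImplicit false
open Pool.Agent.H95.WBaire MeasureTheory

theorem Pool.Agent.Results.MP_51339e_an.No.result :
    ∃ (X : Type) (_ : NormedAddCommGroup X) (_ : NormedSpace ℝ X), CompleteSpace X ∧
      ∃ A : Submodule ℝ X, Dense (A : Set X) ∧
        (Measurable[(Ba X).comap Subtype.val] fun a : A => ‖a.1‖) ∧
        ¬ Measurable[Ba X] fun x : X => ‖x‖ :=
  Pool.Agent.H95.WBaire.main
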